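import Pool.Agent.Run7.h68.PV.AFE

set_option autoImplicit false

open Complex Filter Topology Set MeasureTheory

namespace Pool.Agent.Run7.h68.PV

open Pool.Agent.Run7.h343.PV

/-! ### theta series with bounded coefficients -/

/-- the theta series -/
noncomputable def Th (b : ℕ → ℂ) (c : ℝ) (t : ℝ) : ℂ :=
  ∑' n : ℕ, b n * (Real.exp (-(c * (n : ℝ) ^ 2) * t) : ℂ)

lemma summable_maj {c : ℝ} (hc : 0 < c) : Summable (fun n : ℕ => Real.exp (-(c * n))) := by
  have := Real.summable_pow_mul_exp_neg_nat_mul 0 hc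
  simpa using this

lemma n_le_sq (n : ℕ) : (n : ℝ) ≤ (n : ℝ) ^ 2 := by
  have : n ≤ n ^ 2 := Nat.le_self_pow (by norm_num) n
  exact_mod_cast this

lemma exp_sq_le {c δ t : ℝ} (hc : 0 < c) (hδ : 0 ≤ δ) (ht : δ ≤ t) (n : ℕ) :
    Real.exp (-(c * (n : ℝ) ^ 2) * t) ≤ Real.exp (-((c * δ) * n)) := by
  apply Real.exp_le_exp.2
  have h1 := n_le_sq n
  have h2 : c * δ * n ≤ c * δ * (n : ℝ) ^ 2 := mul_le_mul_of_nonneg_left h1 (by positivity)
  have h3 : c * (n : ℝ) ^ 2 * δ ≤ c * (n : ℝ) ^ 2 * t := mul_le_mul_of_nonneg_left ht (by positivity)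
  nlinarith

lemma term_bound {b : ℕ → ℂ} (hb : ∀ n : ℕ, ‖b n‖ ≤ 1) {c : ℝ} (hc : 0 < c) {δ t : ℝ}
    (hδ : 0 ≤ δ) (ht : δ ≤ t) (n : ℕ) :
    ‖b n * (Real.exp (-(c * (n : ℝ) ^ 2) * t) : ℂ)‖ ≤ Real.exp (-((c * δ) * n)) := by
  rw [norm_mul, Complex.norm_real, Real.norm_eq_abs, Real.abs_exp]
  calc ‖b n‖ * Real.exp (-(c * (n : ℝ) ^ 2) * t) ≤ 1 * Real.exp (-((c * δ) * n)) :=
        mul_le_mul (hb n) (exp_sq_le hc hδ ht n) (Real.exp_pos _).le zero_le_one
    _ = _ := one_mul _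

lemma summable_term {b : ℕ → ℂ} (hb : ∀ n : ℕ, ‖b n‖ ≤ 1) {c : ℝ} (hc : 0 < c) {t : ℝ}
    (ht : 0 < t) : Summable (fun n : ℕ => b n * (Real.exp (-(c * (n : ℝ) ^ 2) * t) : ℂ)) :=
  Summable.of_norm_bounded (summable_maj (c := c * t) (by positivity))
    (fun n => term_bound hb hc ht.le le_rfl n)

lemma continuousOn_Th {b : ℕ → ℂ} (hb : ∀ n : ℕ, ‖b n‖ ≤ 1) {c : ℝ} (hc : 0 < c) :
    ContinuousOn (Th b c) (Ioi 0) := by
  refine continuousOn_of_forall_continuousAt (fun t (ht : 0 < t) => ?_)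
  have h1 : ContinuousOn (Th b c) (Ici (t / 2)) := by
    refine continuousOn_tsum (u := fun n : ℕ => Real.exp (-((c * (t / 2)) * n)))
      (fun n => ?_) ?_ ?_
    · fun_prop
    · exact summable_maj (by positivity)
    · intro n x hx
      exact term_bound hb hc (by positivity) hx n
  exact h1.continuousAt (Ici_mem_nhds (by linarith))

lemma Th_isBigO {b : ℕ → ℂ} (hb0 : b 0 = 0) (hb : ∀ n : ℕ, ‖b n‖ ≤ 1) {c : ℝ} (hc : 0 < c) (r : ℝ) :
    (fun t => Th b c t - 0) =O[atTop] (fun t : ℝ => t ^ r) := by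
  refine Asymptotics.IsBigO.trans ?_ (isLittleO_exp_neg_mul_rpow_atTop hc r).isBigO
  set S : ℝ := ∑' n : ℕ, Real.exp (-(c * n)) with hS
  refine Asymptotics.IsBigO.of_bound (S * Real.exp c) ?_
  filter_upwards [eventually_ge_atTop (1 : ℝ)] with t ht
  rw [sub_zero, Real.norm_eq_abs, Real.abs_exp]
  have hsm := summable_maj hc
  have h1 : ∀ n : ℕ, ‖b n * (Real.exp (-(c * (n : ℝ) ^ 2) * t) : ℂ)‖ ≤
      Real.exp (-(c * n)) * Real.exp (-c * (t - 1)) := by
    intro n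
    rcases Nat.eq_zero_or_pos n with rfl | hn
    · rw [hb0, zero_mul, norm_zero]; positivity
    · rw [norm_mul, Complex.norm_real, Real.norm_eq_abs, Real.abs_exp]
      have h2 : Real.exp (-(c * (n : ℝ) ^ 2) * t) ≤ Real.exp (-(c * n)) * Real.exp (-c * (t - 1)) := by
        rw [← Real.exp_add]
        apply Real.exp_le_exp.mpr
        have h3 : (1 : ℝ) ≤ n := by exact_mod_cast hn
        have h5 := n_le_sq n
        have h6 : c * (n : ℝ) * t ≤ c * (n : ℝ) ^ 2 * t := by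
          refine mul_le_mul_of_nonneg_right (mul_le_mul_of_nonneg_left h5 hc.le) (by linarith)
        have h4 : c * (t - 1) * 1 ≤ c * (t - 1) * n :=
          mul_le_mul_of_nonneg_left h3 (mul_nonneg hc.le (by linarith))
        nlinarith
      calc ‖b n‖ * Real.exp (-(c * (n : ℝ) ^ 2) * t) ≤
          1 * (Real.exp (-(c * n)) * Real.exp (-c * (t - 1))) :=
          mul_le_mul (hb n) h2 (Real.exp_pos _).le zero_le_one
        _ = _ := one_mul _
  have h2 : ‖Th b c t‖ ≤ S * Real.exp (-c * (t - 1)) := by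
    rw [hS, ← tsum_mul_right]
    exact tsum_of_norm_bounded (hsm.mul_right _).hasSum h1
  refine h2.trans (le_of_eq ?_)
  rw [mul_assoc, ← Real.exp_add]
  congr 2
  ring

/-! ### the functional equation -/

lemma hasSum_int {b : ℤ → ℂ} (hb0 : b 0 = 0) (hb : ∀ n : ℤ, ‖b n‖ ≤ 1) (hev : ∀ n, b (-n) = b n)
    {c : ℝ} (hc : 0 < c) {t : ℝ} (ht : 0 < t) :
    HasSum (fun n : ℤ => b n * (Real.exp (-(c * (n : ℝ) ^ 2) * t) : ℂ))
      (2 * Th (fun n : ℕ => b n) c t) := by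
  have h1 := (summable_term (b := fun n : ℕ => b n) (fun n => hb n) hc ht).hasSum
  have h := HasSum.of_nat_of_neg
    (f := fun n : ℤ => b n * (Real.exp (-(c * (n : ℝ) ^ 2) * t) : ℂ))
    (g := Th (fun n : ℕ => b n) c t) (g' := Th (fun n : ℕ => b n) c t)
    (by simpa [Th] using h1) (by simpa [Th, hev] using h1)
  simp only [hb0, zero_mul, sub_zero] at h
  rwa [← two_mul] at h

lemma sum_fin {q : ℕ} [NeZero q] (G : ZMod q → ℂ) :
    ∑ j : Fin q, G ((j : ℕ) : ZMod q) = ∑ a : ZMod q, G a := by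
  refine Fintype.sum_bijective (fun j : Fin q => ((j : ℕ) : ZMod q)) ⟨?_, ?_⟩ _ _ (fun _ => rfl)
  · intro i j h
    have h1 := congrArg ZMod.val h
    simp only [ZMod.val_natCast_of_lt i.2, ZMod.val_natCast_of_lt j.2] at h1
    exact Fin.ext h1
  · intro a
    exact ⟨⟨a.val, ZMod.val_lt a⟩, by simp⟩

lemma even_side {q : ℕ} [NeZero q] (b : ZMod q → ℂ) {t : ℝ} (ht : 0 < t) {A : ℂ}
    (hA : HasSum (fun n : ℤ => b (n : ZMod q) *
      (Real.exp (-(Real.pi / q * (n : ℝ) ^ 2) * t) : ℂ)) A) :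
    A = ∑ j : Fin q, b ((j : ℕ) : ZMod q) *
      (HurwitzZeta.evenKernel (((j : ℝ) / q : ℝ) : UnitAddCircle) (q * t) : ℂ) := by
  have hq : (0 : ℝ) < q := by exact_mod_cast Nat.pos_of_ne_zero (NeZero.ne q)
  have h1 := (Int.divModEquiv q).symm.hasSum_iff.mpr hA
  have h2 := (Equiv.prodComm (Fin q) ℤ).hasSum_iff.mpr h1
  have h3 := h2.prod_fiberwise (g := fun j : Fin q => b ((j : ℕ) : ZMod q) *
      (HurwitzZeta.evenKernel (((j : ℝ) / q : ℝ) : UnitAddCircle) (q * t) : ℂ)) (fun j => by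
    have h4 := HurwitzZeta.hasSum_int_evenKernel ((j : ℝ) / q) (t := q * t) (by positivity)
    have h5 := (Complex.hasSum_ofReal.2 h4).mul_left (b ((j : ℕ) : ZMod q))
    refine h5.congr_fun ?_
    intro m
    simp only [Function.comp_apply, Equiv.prodComm_apply, Prod.swap_prod_mk,
      Int.divModEquiv_symm_apply]
    congr 1
    · congr 1
      push_cast
      simp
    · congr 2
      push_cast
      field_simp)
  exact h3.unique (hasSum_fintype _)

lemma nt {q : ℕ} (hq : 2 ≤ q) : Nontrivial (ZMod q) := by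
  have : Fact (1 < q) := ⟨hq⟩
  exact ZMod.nontrivial q

lemma chi_int {q : ℕ} [NeZero q] (hq : 2 ≤ q) {ψ : DirichletCharacter ℂ q}
    (hev : ψ.Even) {c : ℝ} (hc : 0 < c) {t : ℝ} (ht : 0 < t) :
    HasSum (fun n : ℤ => ψ (n : ZMod q) * (Real.exp (-(c * (n : ℝ) ^ 2) * t) : ℂ))
      (2 * Th (fun n : ℕ => ψ (n : ZMod q)) c t) := by
  have := nt hq
  have h := hasSum_int (b := fun n : ℤ => ψ (n : ZMod q)) (by simp [MulChar.map_zero])
    (fun n => DirichletCharacter.norm_le_one ψ _) (fun n => by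
      push_cast; exact DirichletCharacter.Even.eval_neg ψ _ hev) hc ht
  simpa using h

lemma chi_int' {q : ℕ} [NeZero q] (hq : 2 ≤ q) {ψ : DirichletCharacter ℂ q}
    (hev : ψ.Even) {c : ℝ} (hc : 0 < c) {t : ℝ} (ht : 0 < t) :
    HasSum (fun n : ℤ => (starRingEnd ℂ) (ψ (n : ZMod q)) * (Real.exp (-(c * (n : ℝ) ^ 2) * t) : ℂ))
      (2 * Th (fun n : ℕ => (starRingEnd ℂ) (ψ (n : ZMod q))) c t) := by
  have := nt hq
  have h := hasSum_int (b := fun n : ℤ => (starRingEnd ℂ) (ψ (n : ZMod q)))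
    (by simp [MulChar.map_zero])
    (fun n => by rw [RCLike.norm_conj]; exact DirichletCharacter.norm_le_one ψ _) (fun n => by
      push_cast; rw [hev.eval_neg]) hc ht
  simpa using h

lemma gs {q : ℕ} [NeZero q] {ψ : DirichletCharacter ℂ q} (hψ : ψ.IsPrimitive) (m : ℤ) :
    ∑ j : Fin q, ψ ((j : ℕ) : ZMod q) * cexp (2 * Real.pi * I * (((j : ℝ) / q : ℝ) : ℂ) * m) =
      (starRingEnd ℂ) (ψ (m : ZMod q)) * gaussSum ψ ZMod.stdAddChar := by
  have h1 := gaussSum_mulShift_of_isPrimitive (e := ZMod.stdAddChar) hψ (m : ZMod q)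
  rw [← MulChar.star_apply', gaussSum] at h1
  rw [show (starRingEnd ℂ) (ψ (m : ZMod q)) = star (ψ (m : ZMod q)) from rfl, ← h1,
    ← sum_fin (fun a => ψ a * (ZMod.stdAddChar.mulShift (m : ZMod q)) a)]
  refine Finset.sum_congr rfl fun j _ => ?_
  congr 1
  rw [AddChar.mulShift_apply]
  have : ((m : ZMod q)) * (((j : ℕ) : ZMod q)) = ((m * (j : ℕ) : ℤ) : ZMod q) := by push_cast; ring
  rw [this, ZMod.stdAddChar_coe]
  congr 1
  push_cast
  ring

theorem theta_fe {q : ℕ} [NeZero q] (hq : 2 ≤ q) {ψ : DirichletCharacter ℂ q}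
    (hψ : ψ.IsPrimitive) (hev : ψ.Even) {x : ℝ} (hx : 0 < x) :
    Th (fun n : ℕ => ψ (n : ZMod q)) (Real.pi / q) (1 / x) =
      (ψ.rootNumber * ((x ^ (1 / 2 : ℝ) : ℝ) : ℂ)) •
        Th (fun n : ℕ => (starRingEnd ℂ) (ψ (n : ZMod q))) (Real.pi / q) x := by
  have hq0 : (0 : ℝ) < q := by exact_mod_cast Nat.pos_of_ne_zero (NeZero.ne q)
  have hc : 0 < Real.pi / q := by positivity
  have hx' : 0 < 1 / x := by positivity
  have hA := even_side (fun a => ψ a) hx' (chi_int hq hev hc hx')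
  have hB := hasSum_sum (s := Finset.univ) (f := fun (j : Fin q) (m : ℤ) =>
      ψ ((j : ℕ) : ZMod q) * (cexp (2 * Real.pi * I * (((j : ℝ) / q : ℝ) : ℂ) * m) *
        Real.exp (-Real.pi * (m : ℝ) ^ 2 * (x / q))))
      (a := fun j : Fin q => ψ ((j : ℕ) : ZMod q) *
        (HurwitzZeta.cosKernel (((j : ℝ) / q : ℝ) : UnitAddCircle) (x / q) : ℂ))
      (fun j _ => by
        have := (HurwitzZeta.hasSum_int_cosKernel ((j : ℝ) / q) (t := x / q) (by positivity))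
        exact this.mul_left _)
  have hC := (chi_int' hq hev hc hx).mul_left (gaussSum ψ ZMod.stdAddChar)
  have hD : ∑ j : Fin q, ψ ((j : ℕ) : ZMod q) *
        (HurwitzZeta.cosKernel (((j : ℝ) / q : ℝ) : UnitAddCircle) (x / q) : ℂ) =
      gaussSum ψ ZMod.stdAddChar *
        (2 * Th (fun n : ℕ => (starRingEnd ℂ) (ψ (n : ZMod q))) (Real.pi / q) x) := by
    refine hB.unique (hC.congr_fun ?_)
    intro m
    simp only [← mul_assoc]
    rw [← Finset.sum_mul, gs hψ]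
    have : -Real.pi * (m : ℝ) ^ 2 * (x / q) = -(Real.pi / q * (m : ℝ) ^ 2) * x := by
      field_simp
    rw [this]
    ring
  have hE : ∀ j : Fin q, (HurwitzZeta.evenKernel (((j : ℝ) / q : ℝ) : UnitAddCircle)
      (q * (1 / x)) : ℂ) = ((x ^ (1 / 2 : ℝ) : ℝ) : ℂ) / ((q : ℝ) ^ (1 / 2 : ℝ) : ℝ) *
        (HurwitzZeta.cosKernel (((j : ℝ) / q : ℝ) : UnitAddCircle) (x / q) : ℂ) := by
    intro j
    rw [HurwitzZeta.evenKernel_functional_equation]
    have e1 : 1 / ((q : ℝ) * (1 / x)) = x / q := by field_simp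
    have e2 : ((q : ℝ) * (1 / x)) ^ (1 / 2 : ℝ) = (q : ℝ) ^ (1 / 2 : ℝ) / x ^ (1 / 2 : ℝ) := by
      rw [mul_one_div, Real.div_rpow hq0.le hx.le]
    rw [e1, e2]
    push_cast
    rw [one_div_div]
  simp only [hE] at hA
  have hF : ∑ j : Fin q, ψ ((j : ℕ) : ZMod q) * (((x ^ (1 / 2 : ℝ) : ℝ) : ℂ) /
      ((q : ℝ) ^ (1 / 2 : ℝ) : ℝ) *
        (HurwitzZeta.cosKernel (((j : ℝ) / q : ℝ) : UnitAddCircle) (x / q) : ℂ)) =
      ((x ^ (1 / 2 : ℝ) : ℝ) : ℂ) / ((q : ℝ) ^ (1 / 2 : ℝ) : ℝ) *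
      ∑ j : Fin q, ψ ((j : ℕ) : ZMod q) *
        (HurwitzZeta.cosKernel (((j : ℝ) / q : ℝ) : UnitAddCircle) (x / q) : ℂ) := by
    rw [Finset.mul_sum]
    refine Finset.sum_congr rfl fun j _ => ?_
    ring
  rw [hF, hD] at hA
  have hr : ψ.rootNumber = gaussSum ψ ZMod.stdAddChar / (((q : ℝ) ^ (1 / 2 : ℝ) : ℝ) : ℂ) := by
    unfold DirichletCharacter.rootNumber
    rw [if_pos hev, pow_zero, div_one, Complex.ofReal_cpow hq0.le]
    push_cast
    rfl
  rw [smul_eq_mul, hr]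
  have h2 : (2 : ℂ) ≠ 0 := two_ne_zero
  refine mul_left_cancel₀ h2 ?_
  rw [hA]
  ring

/-! ### the Mellin transform -/

/-- the incomplete Gamma function -/
noncomputable def J (z : ℝ) : ℝ := ∫ x in Ioi z, g x

lemma J_eq (z : ℝ) : J z = Real.Gamma (1 / 4) * V (z / Real.pi) := by
  have hpi := Real.pi_pos
  rw [V_eq, mul_div_cancel₀ _ Real.pi_ne_zero, mul_div_cancel₀ _ Gam_pos.ne']
  rfl

lemma J_nonneg {z : ℝ} (hz : 0 ≤ z) : 0 ≤ J z := by
  rw [J_eq]
  exact mul_nonneg Gam_pos.le (V_nonneg (by positivity))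

lemma J_le {z : ℝ} (hz : 0 ≤ z) : J z ≤ 2 * Real.Gamma (1 / 4) * Real.exp (-(z / Real.pi)) := by
  rw [J_eq]
  have := V_exp (y := z / Real.pi) (by positivity)
  have h2 := Gam_pos
  nlinarith

lemma v0_int (a t0 : ℝ) (ha : 0 < a) (ht0 : 0 ≤ t0) :
    IntegrableOn (fun t : ℝ => t ^ (-3 / 4 : ℝ) * Real.exp (-a * t)) (Ioi t0) ∧
    ∫ t in Ioi t0, t ^ (-3 / 4 : ℝ) * Real.exp (-a * t) =
      a ^ (-1 / 4 : ℝ) * J (a * t0) := by
  have e1 : ∀ t ∈ Ioi t0, a ^ (3 / 4 : ℝ) * g (a * t) =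
      t ^ (-3 / 4 : ℝ) * Real.exp (-a * t) := by
    intro t ht
    have ht' : 0 ≤ t := le_trans ht0 (le_of_lt ht)
    unfold g
    rw [Real.mul_rpow ha.le ht', neg_mul]
    have : a ^ (3 / 4 : ℝ) * a ^ (-(3 / 4) : ℝ) = 1 := by
      rw [← Real.rpow_add ha]; norm_num
    calc a ^ (3 / 4 : ℝ) * (a ^ (-(3 / 4) : ℝ) * t ^ (-(3 / 4) : ℝ) * Real.exp (-(a * t)))
        = (a ^ (3 / 4 : ℝ) * a ^ (-(3 / 4) : ℝ)) * (t ^ (-(3 / 4) : ℝ) * Real.exp (-(a * t))) := by
          ring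
      _ = _ := by rw [this, one_mul, neg_div]
  have hi : IntegrableOn g (Ioi (a * t0)) := g_int' (by positivity)
  have hi2 := ((integrableOn_Ioi_comp_mul_left_iff g t0 ha).2 hi).const_mul (a ^ (3 / 4 : ℝ))
  constructor
  · exact IntegrableOn.congr_fun hi2 e1 measurableSet_Ioi
  · rw [← setIntegral_congr_fun measurableSet_Ioi e1, integral_const_mul]
    rw [integral_comp_mul_left_Ioi g t0 ha, smul_eq_mul]
    have h2 : a ^ (3 / 4 : ℝ) * a⁻¹ = a ^ (-1 / 4 : ℝ) := by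
      rw [← Real.rpow_neg_one, ← Real.rpow_add ha]; norm_num
    rw [← mul_assoc, h2]
    rfl

/-- the power `t ^ (-3/4)` -/
noncomputable def rh (t : ℝ) : ℂ := ((t ^ (-3 / 4 : ℝ) : ℝ) : ℂ)

lemma rh_cpow {t : ℝ} (ht : 0 < t) : (t : ℂ) ^ ((1 / 4 : ℂ) - 1) = rh t := by
  unfold rh
  rw [Complex.ofReal_cpow ht.le]
  congr 1
  push_cast
  norm_num

lemma int_Th {b : ℕ → ℂ} (hb0 : b 0 = 0) (hb : ∀ n : ℕ, ‖b n‖ ≤ 1) {c : ℝ} (hc : 0 < c)
    {t0 : ℝ} (ht : 0 < t0) :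
    Summable (fun n : ℕ => ‖b n‖ * ((c * (n : ℝ) ^ 2) ^ (-1 / 4 : ℝ) * J (c * (n : ℝ) ^ 2 * t0))) ∧
    ∫ t in Ioi t0, rh t * Th b c t =
      ∑' n : ℕ, b n * (((c * (n : ℝ) ^ 2) ^ (-1 / 4 : ℝ) * J (c * (n : ℝ) ^ 2 * t0) : ℝ) : ℂ) := by
  unfold Th
  have hpi := Real.pi_pos
  have hint : ∀ n : ℕ, Integrable (fun t : ℝ => rh t *
      (b n * (Real.exp (-(c * (n : ℝ) ^ 2) * t) : ℂ))) (volume.restrict (Ioi t0)) := by
    intro n
    rcases Nat.eq_zero_or_pos n with rfl | hn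
    · rw [hb0]
      simp only [zero_mul, mul_zero]
      exact integrable_zero _ _ _
    · have hn' : (0 : ℝ) < n := by exact_mod_cast hn
      have h0 : 0 < c * (n : ℝ) ^ 2 := by positivity
      have h1 := (v0_int (c * (n : ℝ) ^ 2) t0 h0 ht.le).1
      refine ((Integrable.ofReal (𝕜 := ℂ) h1).const_mul (b n)).congr ?_
      refine Eventually.of_forall fun t => ?_
      simp only [rh, Complex.coe_algebraMap, RCLike.ofReal_mul]
      push_cast
      ring
  have heq : ∀ n : ℕ, ∫ t in Ioi t0, ‖rh t *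
      (b n * (Real.exp (-(c * (n : ℝ) ^ 2) * t) : ℂ))‖ =
      ‖b n‖ * ((c * (n : ℝ) ^ 2) ^ (-1 / 4 : ℝ) * J (c * (n : ℝ) ^ 2 * t0)) := by
    intro n
    rcases Nat.eq_zero_or_pos n with rfl | hn
    · rw [hb0]
      simp only [zero_mul, mul_zero, norm_zero, integral_zero]
    · have hn' : (1 : ℝ) ≤ n := by exact_mod_cast hn
      have h0 : 0 < c * (n : ℝ) ^ 2 := by positivity
      have e1 : ∀ t ∈ Ioi t0, ‖rh t * (b n * (Real.exp (-(c * (n : ℝ) ^ 2) * t) : ℂ))‖ =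
          ‖b n‖ * (t ^ (-3 / 4 : ℝ) * Real.exp (-(c * (n : ℝ) ^ 2) * t)) := by
        intro t (ht' : t0 < t)
        have : 0 < t := by linarith
        unfold rh
        rw [norm_mul, norm_mul, Complex.norm_real, Complex.norm_real, Real.norm_eq_abs,
          Real.norm_eq_abs, Real.abs_exp, abs_of_nonneg (by positivity : (0:ℝ) ≤ t ^ (-3 / 4 : ℝ))]
        ring
      rw [setIntegral_congr_fun measurableSet_Ioi e1, integral_const_mul,
        (v0_int (c * (n : ℝ) ^ 2) t0 h0 ht.le).2]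
  have hnorm : ∀ n : ℕ, ‖b n‖ * ((c * (n : ℝ) ^ 2) ^ (-1 / 4 : ℝ) * J (c * (n : ℝ) ^ 2 * t0)) ≤
      (c ^ (-1 / 4 : ℝ) * (2 * Real.Gamma (1 / 4))) * Real.exp (-((c * t0 / Real.pi) * n)) := by
    intro n
    rcases Nat.eq_zero_or_pos n with rfl | hn
    · rw [hb0, norm_zero, zero_mul]
      have := Gam_pos
      positivity
    · have hn' : (1 : ℝ) ≤ n := by exact_mod_cast hn
      have hsq := n_le_sq n
      have h0 : 0 < c * (n : ℝ) ^ 2 := by positivity
      have h3 : J (c * (n : ℝ) ^ 2 * t0) ≤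
          2 * Real.Gamma (1 / 4) * Real.exp (-((c * t0 / Real.pi) * n)) := by
        refine (J_le (z := c * (n : ℝ) ^ 2 * t0) (by positivity)).trans ?_
        refine mul_le_mul_of_nonneg_left (Real.exp_le_exp.2 ?_) (by have := Gam_pos; positivity)
        have : (c * t0 / Real.pi) * n ≤ (c * t0 / Real.pi) * (n : ℝ) ^ 2 :=
          mul_le_mul_of_nonneg_left hsq (by positivity)
        have e : c * (n : ℝ) ^ 2 * t0 / Real.pi = (c * t0 / Real.pi) * (n : ℝ) ^ 2 := by ring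
        rw [e]
        linarith
      have h4 : (c * (n : ℝ) ^ 2) ^ (-1 / 4 : ℝ) ≤ c ^ (-1 / 4 : ℝ) := by
        refine Real.rpow_le_rpow_of_nonpos hc ?_ (by norm_num)
        nlinarith
      have h5 := J_nonneg (z := c * (n : ℝ) ^ 2 * t0) (by positivity)
      calc ‖b n‖ * ((c * (n : ℝ) ^ 2) ^ (-1 / 4 : ℝ) * J (c * (n : ℝ) ^ 2 * t0))
          ≤ 1 * (c ^ (-1 / 4 : ℝ) * (2 * Real.Gamma (1 / 4) *
            Real.exp (-((c * t0 / Real.pi) * n)))) := by
            refine mul_le_mul (hb n) (mul_le_mul h4 h3 h5 (by positivity)) ?_ zero_le_one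
            positivity
        _ = _ := by ring
  have hsum0 : Summable fun n : ℕ =>
      ‖b n‖ * ((c * (n : ℝ) ^ 2) ^ (-1 / 4 : ℝ) * J (c * (n : ℝ) ^ 2 * t0)) := by
    refine Summable.of_nonneg_of_le (fun n => ?_) hnorm ?_
    · have := J_nonneg (z := c * (n : ℝ) ^ 2 * t0) (by positivity)
      positivity
    · exact (summable_maj (c := c * t0 / Real.pi) (by positivity)).mul_left _
  have hsum : Summable fun n : ℕ => ∫ t in Ioi t0, ‖rh t *
      (b n * (Real.exp (-(c * (n : ℝ) ^ 2) * t) : ℂ))‖ := by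
    simp only [heq]; exact hsum0
  refine ⟨hsum0, ?_⟩
  have e0 : ∀ t : ℝ, rh t * ∑' n : ℕ, b n * (Real.exp (-(c * (n : ℝ) ^ 2) * t) : ℂ) =
      ∑' n : ℕ, rh t * (b n * (Real.exp (-(c * (n : ℝ) ^ 2) * t) : ℂ)) := by
    intro t
    rw [tsum_mul_left]
  simp only [e0]
  rw [← integral_tsum_of_summable_integral_norm hint hsum]
  refine tsum_congr fun n => ?_
  rcases Nat.eq_zero_or_pos n with rfl | hn
  · rw [hb0]; simp
  · have hn' : (0 : ℝ) < n := by exact_mod_cast hn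
    have h0 : 0 < c * (n : ℝ) ^ 2 := by positivity
    rw [← (v0_int (c * (n : ℝ) ^ 2) t0 h0 ht.le).2]
    have e2 : ∀ t : ℝ, rh t * (b n * (Real.exp (-(c * (n : ℝ) ^ 2) * t) : ℂ)) =
        b n * ((t ^ (-3 / 4 : ℝ) * Real.exp (-(c * (n : ℝ) ^ 2) * t) : ℝ) : ℂ) := by
      intro t
      unfold rh
      push_cast
      ring
    simp only [e2]
    rw [integral_const_mul, integral_complex_ofReal]

/-- the lower part of the integral -/
lemma int_low (f f' : ℝ → ℂ) (w : ℂ) (t0 : ℝ) (ht : 0 < t0)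
    (h : ∀ t : ℝ, 0 < t → f (t⁻¹) = w * ((t ^ (1 / 2 : ℝ) : ℝ) : ℂ) * f' t) :
    ∫ t in Ioc 0 t0, rh t * f t = w * ∫ t in Ioi t0⁻¹, rh t * f' t := by
  have h1 : ∫ t in Ioc 0 t0, rh t * f t = mellin ((Iic t0).indicator f) (1 / 4) := by
    rw [mellin]
    have e0 : ∀ t ∈ Ioi (0 : ℝ), (t : ℂ) ^ ((1 / 4 : ℂ) - 1) • (Iic t0).indicator f t =
        (Iic t0).indicator (fun t : ℝ => rh t * f t) t := by
      intro t (ht0 : 0 < t)
      rw [rh_cpow ht0]
      by_cases ht' : t ∈ Iic t0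
      · rw [indicator_of_mem ht', indicator_of_mem ht', smul_eq_mul]
      · rw [indicator_of_notMem ht', indicator_of_notMem ht', smul_zero]
    rw [setIntegral_congr_fun measurableSet_Ioi e0, setIntegral_indicator measurableSet_Iic]
    rfl
  have h2 : mellin ((Iic t0).indicator f) (1 / 4) =
      mellin (fun t => (Iic t0).indicator f t⁻¹) (-(1 / 4 : ℂ)) := by
    rw [mellin_comp_inv, neg_neg]
  rw [h1, h2, mellin]
  have h3 : ∀ t ∈ Ioi (0 : ℝ), (t : ℂ) ^ (-(1 / 4 : ℂ) - 1) • (Iic t0).indicator f t⁻¹ =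
      (Ici t0⁻¹).indicator (fun t : ℝ => w * (rh t * f' t)) t := by
    intro t (ht' : 0 < t)
    by_cases hh : t⁻¹ ≤ t0
    · have hh' : t0⁻¹ ≤ t := inv_le_of_inv_le₀ ht' hh
      rw [indicator_of_mem (show t⁻¹ ∈ Iic t0 from hh), indicator_of_mem (show t ∈ Ici t0⁻¹ from hh')]
      rw [h t ht', smul_eq_mul]
      have htc : (t : ℂ) ≠ 0 := by exact_mod_cast ht'.ne'
      have e2 : (t : ℂ) ^ (-(1 / 4 : ℂ) - 1) * ((t ^ (1 / 2 : ℝ) : ℝ) : ℂ) = rh t := by
        rw [← rh_cpow ht', Complex.ofReal_cpow ht'.le, ← Complex.cpow_add _ _ htc]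
        congr 1
        push_cast
        norm_num
      rw [← e2]
      ring
    · have hh' : ¬ t0⁻¹ ≤ t := fun h' => hh (inv_le_of_inv_le₀ ht h')
      rw [indicator_of_notMem (show t⁻¹ ∉ Iic t0 from hh),
        indicator_of_notMem (show t ∉ Ici t0⁻¹ from hh'), smul_zero]
  rw [setIntegral_congr_fun measurableSet_Ioi h3, setIntegral_indicator measurableSet_Ici]
  have h4 : Ioi (0 : ℝ) ∩ Ici t0⁻¹ = Ici t0⁻¹ := by
    apply inter_eq_right.2
    intro x hx
    have : 0 < t0⁻¹ := by positivity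
    exact lt_of_lt_of_le this hx
  rw [h4, integral_Ici_eq_integral_Ioi, integral_const_mul]

/-! ### the final theorem -/

lemma root_ne {q : ℕ} [NeZero q] {ψ : DirichletCharacter ℂ q} (hψ : ψ.IsPrimitive) :
    ψ.rootNumber ≠ 0 := by
  intro h0
  have h := DirichletCharacter.IsPrimitive.completedLFunction_one_sub hψ (-1)
  rw [h0, mul_zero, zero_mul, show (1 : ℂ) - (-1) = 2 by norm_num] at h
  have h1 := DirichletCharacter.LFunction_eq_completed_div_gammaFactor ψ 2 (Or.inl two_ne_zero)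
  rw [h, zero_div] at h1
  exact DirichletCharacter.LFunction_ne_zero_of_one_le_re ψ (s := 2) (Or.inr (by norm_num))
    (by simp) h1

/-- the pair -/
noncomputable def PP {q : ℕ} [NeZero q] (hq : 2 ≤ q) {ψ : DirichletCharacter ℂ q}
    (hψ : ψ.IsPrimitive) (hev : ψ.Even) : WeakFEPair ℂ :=
  have hc : 0 < Real.pi / q := by
    have : (0 : ℝ) < q := by exact_mod_cast Nat.pos_of_ne_zero (NeZero.ne q)
    have := Real.pi_pos
    positivity
  have hb : ∀ n : ℕ, ‖ψ (n : ZMod q)‖ ≤ 1 := fun n => DirichletCharacter.norm_le_one ψ _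
  have hb' : ∀ n : ℕ, ‖(starRingEnd ℂ) (ψ (n : ZMod q))‖ ≤ 1 := fun n => by
    rw [RCLike.norm_conj]; exact DirichletCharacter.norm_le_one ψ _
  have hb0 : ψ ((0 : ℕ) : ZMod q) = 0 := by
    have := nt hq
    simp [MulChar.map_zero]
  have hb0' : (starRingEnd ℂ) (ψ ((0 : ℕ) : ZMod q)) = 0 := by rw [hb0, map_zero]
  { f := Th (fun n : ℕ => ψ (n : ZMod q)) (Real.pi / q)
    g := Th (fun n : ℕ => (starRingEnd ℂ) (ψ (n : ZMod q))) (Real.pi / q)
    k := 1 / 2
    ε := ψ.rootNumber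
    f₀ := 0
    g₀ := 0
    hf_int := (continuousOn_Th hb hc).locallyIntegrableOn measurableSet_Ioi
    hg_int := (continuousOn_Th hb' hc).locallyIntegrableOn measurableSet_Ioi
    hk := by norm_num
    hε := root_ne hψ
    h_feq := fun x hx => theta_fe hq hψ hev hx
    hf_top := Th_isBigO hb0 hb hc
    hg_top := Th_isBigO hb0' hb' hc }

theorem value {q : ℕ} [NeZero q] (hq : 2 ≤ q) {ψ : DirichletCharacter ℂ q}
    (hψ : ψ.IsPrimitive) (hev : ψ.Even) :
    IntegrableOn (fun t : ℝ => rh t * Th (fun n : ℕ => ψ (n : ZMod q)) (Real.pi / q) t) (Ioi 0) ∧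
    ψ.LFunction (1 / 2) = (((Real.pi / q) ^ (1 / 4 : ℝ) / Real.Gamma (1 / 4) : ℝ) : ℂ) *
      ∫ t in Ioi (0 : ℝ), rh t * Th (fun n : ℕ => ψ (n : ZMod q)) (Real.pi / q) t := by
  have hpi := Real.pi_pos
  have hq0 : (0 : ℝ) < q := by exact_mod_cast Nat.pos_of_ne_zero (NeZero.ne q)
  have hne := nt hq
  have hb : ∀ n : ℕ, ‖ψ (n : ZMod q)‖ ≤ 1 := fun n => DirichletCharacter.norm_le_one ψ _
  have hb0 : ψ ((0 : ℕ) : ZMod q) = 0 := by simp [MulChar.map_zero]
  set c : ℝ := Real.pi / q with hcdef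
  have hc : 0 < c := by positivity
  set P := PP hq hψ hev with hPdef
  have hP : IsStrongFEPair P := ⟨rfl, rfl⟩
  have hΛf : P.Λ = mellin (Th (fun n : ℕ => ψ (n : ZMod q)) c) := hP.Λ_eq
  have hcC : (c : ℂ) ≠ 0 := by exact_mod_cast hc.ne'
  let F : ℂ → ℂ := fun s => P.Λ (s / 2) * (c : ℂ) ^ (s / 2) * (Complex.Gamma (s / 2))⁻¹
  have hF : Differentiable ℂ F := by
    have h1 : Differentiable ℂ (fun s : ℂ => P.Λ (s / 2)) :=
      hP.differentiable_Λ.comp (differentiable_id.div_const 2)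
    have h2 : Differentiable ℂ (fun s : ℂ => (c : ℂ) ^ (s / 2)) := by
      intro s
      exact (DifferentiableAt.const_cpow (by fun_prop) (Or.inl hcC))
    have h3 : Differentiable ℂ (fun s : ℂ => (Complex.Gamma (s / 2))⁻¹) :=
      Complex.differentiable_one_div_Gamma.comp (differentiable_id.div_const 2)
    exact (h1.mul h2).mul h3
  have hψ1 : ψ ≠ 1 := by
    rintro rfl
    have h1 : (1 : DirichletCharacter ℂ q).conductor = q := hψ
    rw [DirichletCharacter.conductor_one] at h1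
    omega
  have hL : Differentiable ℂ ψ.LFunction := DirichletCharacter.differentiable_LFunction hψ1
  have hser : ∀ s : ℂ, 1 < s.re → F s = ψ.LFunction s := by
    intro s hs
    have hSre : (s / 2).re = s.re / 2 := by
      rw [show s / 2 = ((1 / 2 : ℝ) : ℂ) * s by push_cast; ring, Complex.re_ofReal_mul]; ring
    have hSpos : 0 < (s / 2).re := by rw [hSre]; linarith
    have hG : Complex.Gamma (s / 2) ≠ 0 := Complex.Gamma_ne_zero_of_re_pos hSpos
    have h1 := hasSum_mellin (a := fun n : ℕ => ψ (n : ZMod q)) (p := fun n : ℕ => c * (n : ℝ) ^ 2)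
      (F := Th (fun n : ℕ => ψ (n : ZMod q)) c) (s := s / 2)
      (by
        intro n
        rcases Nat.eq_zero_or_pos n with rfl | hn
        · exact Or.inl hb0
        · right
          have : (0 : ℝ) < n := by exact_mod_cast hn
          positivity) hSpos
      (by
        intro t (ht : 0 < t)
        exact (summable_term hb hc ht).hasSum)
      (by
        have h2 : Summable (fun n : ℕ => 1 / c ^ (s.re / 2) * (n : ℝ) ^ (- s.re)) :=
          (Real.summable_nat_rpow.mpr (by linarith)).mul_left _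
        refine Summable.of_nonneg_of_le (fun n => by positivity) (fun n => ?_) h2
        rcases Nat.eq_zero_or_pos n with rfl | hn
        · rw [hb0, norm_zero, zero_div]; positivity
        · have hn' : (0 : ℝ) < n := by exact_mod_cast hn
          rw [hSre, Real.mul_rpow hc.le (by positivity), ← Real.rpow_natCast (n : ℝ) 2,
            ← Real.rpow_mul hn'.le, Real.rpow_neg hn'.le]
          have e : ((2 : ℕ) : ℝ) * (s.re / 2) = s.re := by push_cast; ring
          rw [e, one_div, ← mul_inv, ← one_div]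
          exact div_le_div_of_nonneg_right (hb n) (by positivity))
    have h2 := h1.tsum_eq
    have h3 : F s = (∑' n : ℕ, Complex.Gamma (s / 2) * ψ (n : ZMod q) /
        ((c * (n : ℝ) ^ 2 : ℝ) : ℂ) ^ (s / 2)) * (c : ℂ) ^ (s / 2) *
        (Complex.Gamma (s / 2))⁻¹ := by
      simp only [F]
      rw [hΛf, ← h2]
    have hcs : (c : ℂ) ^ (s / 2) ≠ 0 := by
      rw [Complex.cpow_def_of_ne_zero hcC]; exact Complex.exp_ne_zero _
    rw [h3, ← tsum_mul_right, ← tsum_mul_right, DirichletCharacter.LFunction_eq_LSeries ψ hs,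
      LSeries]
    refine tsum_congr (fun n => ?_)
    rcases Nat.eq_zero_or_pos n with rfl | hn
    · rw [hb0]; simp
    · have hn' : (n : ℂ) ≠ 0 := by exact_mod_cast hn.ne'
      have hnS : (n : ℂ) ^ s ≠ 0 := by
        rw [Complex.cpow_def_of_ne_zero hn']; exact Complex.exp_ne_zero _
      have e1 : ((c * (n : ℝ) ^ 2 : ℝ) : ℂ) ^ (s / 2) = (c : ℂ) ^ (s / 2) * (n : ℂ) ^ s := by
        rw [Complex.ofReal_mul, Complex.mul_cpow_ofReal_nonneg hc.le (by positivity)]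
        congr 1
        rw [sq, Complex.ofReal_mul, Complex.mul_cpow_ofReal_nonneg (Nat.cast_nonneg n)
          (Nat.cast_nonneg n), Complex.ofReal_natCast, ← Complex.cpow_add _ _ hn']
        congr 1
        ring
      rw [e1, LSeries.term_of_ne_zero hn.ne']
      field_simp
  have hall : ∀ s, F s = ψ.LFunction s := by
    have h1 : AnalyticOnNhd ℂ F univ := hF.differentiableOn.analyticOnNhd isOpen_univ
    have h2 : AnalyticOnNhd ℂ ψ.LFunction univ := hL.differentiableOn.analyticOnNhd isOpen_univ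
    have h3 := h1.eqOn_of_preconnected_of_eventuallyEq h2 isPreconnected_univ
      (mem_univ (2 : ℂ)) (by
        have : {s : ℂ | 1 < s.re} ∈ 𝓝 (2 : ℂ) :=
          (isOpen_lt continuous_const Complex.continuous_re).mem_nhds (by simp)
        filter_upwards [this] with s hs using hser s hs)
    exact fun s => h3 (mem_univ s)
  have hcong : ∀ t ∈ Ioi (0 : ℝ), (t : ℂ) ^ ((1 / 4 : ℂ) - 1) •
      Th (fun n : ℕ => ψ (n : ZMod q)) c t = rh t * Th (fun n : ℕ => ψ (n : ZMod q)) c t := by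
    intro t ht
    rw [rh_cpow ht, smul_eq_mul]
  constructor
  · have h1 := (hP.hasMellin (1 / 4 : ℂ)).1
    have h2 : IntegrableOn (fun t : ℝ => (t : ℂ) ^ ((1 / 4 : ℂ) - 1) •
      Th (fun n : ℕ => ψ (n : ZMod q)) c t) (Ioi 0) := h1
    exact IntegrableOn.congr_fun h2 hcong measurableSet_Ioi
  · rw [← hall (1 / 2)]
    simp only [F]
    have hch : (c : ℂ) ^ (1 / 4 : ℂ) = ((c ^ (1 / 4 : ℝ) : ℝ) : ℂ) := by
      rw [Complex.ofReal_cpow hc.le]
      push_cast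
      rfl
    have hGam : Complex.Gamma (1 / 4 : ℂ) = ((Real.Gamma (1 / 4) : ℝ) : ℂ) := by
      rw [← Complex.Gamma_ofReal]
      push_cast
      rfl
    rw [show (1 / 2 : ℂ) / 2 = 1 / 4 by norm_num, hΛf, hch, hGam, mellin,
      setIntegral_congr_fun measurableSet_Ioi hcong]
    push_cast
    ring

lemma term_eq {q : ℕ} [NeZero q] (z : ℂ) (n : ℕ) (hz : n = 0 → z = 0) (X : ℝ) :
    (((Real.pi / q) ^ (1 / 4 : ℝ) / Real.Gamma (1 / 4) : ℝ) : ℂ) *
      (z * (((Real.pi / q * (n : ℝ) ^ 2) ^ (-1 / 4 : ℝ) *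
        J (Real.pi / q * (n : ℝ) ^ 2 * X) : ℝ) : ℂ)) =
    z * ((V ((n : ℝ) ^ 2 * X / q) / Real.sqrt n : ℝ) : ℂ) := by
  have hpi := Real.pi_pos
  have hq0 : (0 : ℝ) < q := by exact_mod_cast Nat.pos_of_ne_zero (NeZero.ne q)
  have hG := Gam_pos
  rcases Nat.eq_zero_or_pos n with rfl | hn
  · rw [hz rfl]; simp
  · have hn' : (0 : ℝ) < n := by exact_mod_cast hn
    have hc : 0 < Real.pi / q := by positivity
    have h1 : (Real.pi / q * (n : ℝ) ^ 2) ^ (-1 / 4 : ℝ) =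
        ((Real.pi / q) ^ (1 / 4 : ℝ))⁻¹ * (Real.sqrt n)⁻¹ := by
      rw [Real.mul_rpow hc.le (by positivity), ← Real.rpow_neg hc.le, Real.sqrt_eq_rpow,
        ← Real.rpow_neg hn'.le, ← Real.rpow_natCast (n : ℝ) 2, ← Real.rpow_mul hn'.le]
      norm_num
    have h2 : J (Real.pi / q * (n : ℝ) ^ 2 * X) = Real.Gamma (1 / 4) * V ((n : ℝ) ^ 2 * X / q) := by
      rw [J_eq]
      congr 2
      field_simp
    have h3 : (Real.pi / q) ^ (1 / 4 : ℝ) ≠ 0 := (Real.rpow_pos_of_pos hc _).ne'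
    have h4 : Real.sqrt n ≠ 0 := (Real.sqrt_pos.2 hn').ne'
    have h5 : (Real.pi / q) ^ (1 / 4 : ℝ) / Real.Gamma (1 / 4) *
        ((Real.pi / q * (n : ℝ) ^ 2) ^ (-1 / 4 : ℝ) * J (Real.pi / q * (n : ℝ) ^ 2 * X)) =
        V ((n : ℝ) ^ 2 * X / q) / Real.sqrt n := by
      rw [h1, h2]
      field_simp
    rw [← h5]
    push_cast
    ring

theorem t_AFE0 : S_AFE0 := by
  intro q _ hq ψ hψ hev X hX
  have hpi := Real.pi_pos
  have hq0 : (0 : ℝ) < q := by exact_mod_cast Nat.pos_of_ne_zero (NeZero.ne q)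
  have hc : 0 < Real.pi / q := by positivity
  have hG := Gam_pos
  have hne := nt hq
  have hb : ∀ n : ℕ, ‖ψ (n : ZMod q)‖ ≤ 1 := fun n => DirichletCharacter.norm_le_one ψ _
  have hb' : ∀ n : ℕ, ‖(starRingEnd ℂ) (ψ (n : ZMod q))‖ ≤ 1 := fun n => by
    rw [RCLike.norm_conj]; exact DirichletCharacter.norm_le_one ψ _
  have hb0 : ψ ((0 : ℕ) : ZMod q) = 0 := by simp [MulChar.map_zero]
  have hb0' : (starRingEnd ℂ) (ψ ((0 : ℕ) : ZMod q)) = 0 := by rw [hb0, map_zero]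
  have hv := value hq hψ hev
  have i1 := int_Th (b := fun n : ℕ => ψ (n : ZMod q)) hb0 hb hc hX
  have i2 := int_Th (b := fun n : ℕ => (starRingEnd ℂ) (ψ (n : ZMod q))) hb0' hb' hc
    (inv_pos.2 hX)
  constructor
  · have h := i1.1.mul_left ((Real.pi / q) ^ (1 / 4 : ℝ) / Real.Gamma (1 / 4))
    refine h.congr fun n => ?_
    have h5 := term_eq (q := q) ((‖ψ (n : ZMod q)‖ : ℝ) : ℂ) n (fun h => by
      rw [h, hb0]; simp) X
    rw [← Complex.ofReal_mul, ← Complex.ofReal_mul, ← Complex.ofReal_mul] at h5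
    exact_mod_cast h5
  · have e2 : ∫ t in Ioi (0 : ℝ), rh t * Th (fun n : ℕ => ψ (n : ZMod q)) (Real.pi / q) t =
        (∫ t in Ioc (0 : ℝ) X, rh t * Th (fun n : ℕ => ψ (n : ZMod q)) (Real.pi / q) t) +
          ∫ t in Ioi X, rh t * Th (fun n : ℕ => ψ (n : ZMod q)) (Real.pi / q) t := by
      rw [← Ioc_union_Ioi_eq_Ioi hX.le]
      refine setIntegral_union ?_ measurableSet_Ioi (hv.1.mono_set Ioc_subset_Ioi_self)
        (hv.1.mono_set (Ioi_subset_Ioi hX.le))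
      rw [Set.disjoint_left]
      intro x hx hx'
      exact absurd hx.2 (not_le.2 hx')
    have e3 : ∫ t in Ioc (0 : ℝ) X, rh t * Th (fun n : ℕ => ψ (n : ZMod q)) (Real.pi / q) t =
        ψ.rootNumber * ∫ t in Ioi X⁻¹, rh t *
          Th (fun n : ℕ => (starRingEnd ℂ) (ψ (n : ZMod q))) (Real.pi / q) t := by
      refine int_low _ _ ψ.rootNumber X hX fun t ht => ?_
      have := theta_fe hq hψ hev ht
      rw [one_div, smul_eq_mul] at this
      exact this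
    rw [hv.2, e2, e3, i1.2, i2.2, mul_add, add_comm, mul_left_comm, ← tsum_mul_left,
      ← tsum_mul_left]
    congr 1
    · exact tsum_congr fun n => term_eq _ n (fun h => by rw [h, hb0]) X
    · congr 1
      refine tsum_congr fun n => ?_
      rw [term_eq _ n (fun h => by rw [h, hb0']) X⁻¹]
      congr 4
      rw [← div_eq_mul_inv, div_div]

end Pool.Agent.Run7.h68.PV

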