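import Pool.Agent.Run7.h343.PV.Iface

set_option autoImplicit false

namespace Pool.Agent.Run7.h68.PV

open Pool.Agent.Run7.h343.PV
open MeasureTheory Set

noncomputable def g (x : ℝ) : ℝ := x ^ (-(3 / 4) : ℝ) * Real.exp (-x)

lemma g_int : IntegrableOn g (Ioi 0) := by
  have h := Real.GammaIntegral_convergent (s := 1/4) (by norm_num)
  refine h.congr_fun ?_ measurableSet_Ioi
  intro x hx
  simp only [g]; rw [mul_comm]; norm_num

lemma g_nonneg {x : ℝ} (hx : 0 < x) : 0 ≤ g x := by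
  unfold g; positivity

lemma g_int' {a : ℝ} (ha : 0 ≤ a) : IntegrableOn g (Ioi a) :=
  g_int.mono_set (Ioi_subset_Ioi ha)

lemma Gam : Real.Gamma (1 / 4) = ∫ x in Ioi (0:ℝ), g x := by
  rw [Real.Gamma_eq_integral (by norm_num)]
  refine setIntegral_congr_fun measurableSet_Ioi ?_
  intro x hx
  simp only [g]; rw [mul_comm]; norm_num

lemma V_eq (y : ℝ) : V y = (∫ x in Ioi (Real.pi * y), g x) / Real.Gamma (1 / 4) := rfl

lemma Gam_pos : 0 < Real.Gamma (1 / 4) := Real.Gamma_pos_of_pos (by norm_num)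

lemma Gam_ge : 3 ≤ Real.Gamma (1 / 4) := by
  have h1 : Real.Gamma (7 / 4) ≤ 1 := by
    have h := Real.convexOn_Gamma.2 (show (1:ℝ) ∈ Ioi (0:ℝ) by simp) (show (2:ℝ) ∈ Ioi (0:ℝ) by simp)
      (show (0:ℝ) ≤ 1 / 4 by norm_num) (show (0:ℝ) ≤ 3 / 4 by norm_num) (by norm_num)
    simp only [smul_eq_mul, Real.Gamma_one, Real.Gamma_two] at h
    norm_num at h
    exact h
  have h2 : Real.Gamma (7 / 4) = 3 / 4 * Real.Gamma (3 / 4) := by
    have := Real.Gamma_add_one (s := 3 / 4) (by norm_num)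
    norm_num at this
    exact this
  have h3 : Real.Gamma (1 / 4) * Real.Gamma (3 / 4) = Real.pi / (Real.sqrt 2 / 2) := by
    have := Real.Gamma_mul_Gamma_one_sub (1 / 4)
    rw [show Real.pi * (1 / 4) = Real.pi / 4 by ring, Real.sin_pi_div_four] at this
    norm_num at this
    norm_num
    exact this
  have h4 : 0 < Real.Gamma (3 / 4) := Real.Gamma_pos_of_pos (by norm_num)
  have h5 : Real.Gamma (3 / 4) ≤ 4 / 3 := by linarith
  have h6 : (4 : ℝ) ≤ Real.pi / (Real.sqrt 2 / 2) := by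
    have hs : 0 < Real.sqrt 2 := by positivity
    rw [le_div_iff₀ (by positivity)]
    have : Real.sqrt 2 ≤ 1.5 := by
      rw [Real.sqrt_le_left (by norm_num)]; norm_num
    have := Real.pi_gt_three
    nlinarith
  have := Gam_pos
  nlinarith

lemma V_nonneg {y : ℝ} (hy : 0 ≤ y) : 0 ≤ V y := by
  rw [V_eq]
  refine div_nonneg (setIntegral_nonneg measurableSet_Ioi ?_) Gam_pos.le
  intro x hx
  have : 0 ≤ Real.pi * y := by positivity
  exact g_nonneg (lt_of_le_of_lt this hx)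

lemma V_anti {y z : ℝ} (hy : 0 ≤ y) (hz : y ≤ z) : V z ≤ V y := by
  rw [V_eq, V_eq]
  have h0 : 0 ≤ Real.pi * y := by positivity
  refine div_le_div_of_nonneg_right ?_ Gam_pos.le
  refine setIntegral_mono_set (g_int' h0) ?_ ?_
  · refine (ae_restrict_iff' measurableSet_Ioi).2 (Filter.Eventually.of_forall ?_)
    intro x hx
    exact g_nonneg (lt_of_le_of_lt h0 hx)
  · exact (Ioi_subset_Ioi (by gcongr)).eventuallyLE

lemma V_zero : V 0 = 1 := by
  rw [V_eq, mul_zero, ← Gam]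
  exact div_self Gam_pos.ne'

lemma V_le_one {y : ℝ} (hy : 0 ≤ y) : V y ≤ 1 := V_zero ▸ V_anti le_rfl hy

lemma V_low {y : ℝ} (hy : 0 ≤ y) : 1 - V y ≤ 2 * y ^ (1 / 4 : ℝ) := by
  have h0 : 0 ≤ Real.pi * y := by positivity
  have hsp : (∫ x in Ioi (0:ℝ), g x) = (∫ x in Ioc (0:ℝ) (Real.pi * y), g x) +
      ∫ x in Ioi (Real.pi * y), g x := by
    rw [← setIntegral_union (Ioc_disjoint_Ioi le_rfl) measurableSet_Ioi
      (g_int.mono_set Ioc_subset_Ioi_self) (g_int' h0), Ioc_union_Ioi_eq_Ioi h0]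
  have h1 : (∫ x in Ioc (0:ℝ) (Real.pi * y), g x) ≤ 4 * (Real.pi * y) ^ (1 / 4 : ℝ) := by
    have hi : IntervalIntegrable (fun x : ℝ => x ^ (-(3 / 4) : ℝ)) volume 0 (Real.pi * y) :=
      intervalIntegral.intervalIntegrable_rpow' (by norm_num)
    have h2 : (∫ x in Ioc (0:ℝ) (Real.pi * y), g x) ≤
        ∫ x in Ioc (0:ℝ) (Real.pi * y), x ^ (-(3 / 4) : ℝ) := by
      refine setIntegral_mono_on (g_int.mono_set Ioc_subset_Ioi_self) ?_ measurableSet_Ioc ?_
      · exact (intervalIntegrable_iff_integrableOn_Ioc_of_le h0).1 hi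
      · intro x hx
        unfold g
        have : Real.exp (-x) ≤ 1 := Real.exp_le_one_iff.2 (by linarith [hx.1])
        have h3 : (0:ℝ) ≤ x ^ (-(3 / 4) : ℝ) := Real.rpow_nonneg hx.1.le _
        nlinarith
    refine h2.trans ?_
    rw [← intervalIntegral.integral_of_le h0, integral_rpow (Or.inl (by norm_num))]
    norm_num
    linarith
  have h2 : 1 - V y = (∫ x in Ioc (0:ℝ) (Real.pi * y), g x) / Real.Gamma (1 / 4) := by
    rw [V_eq, eq_div_iff Gam_pos.ne', sub_mul, div_mul_cancel₀ _ Gam_pos.ne', one_mul, Gam, hsp]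
    ring
  rw [h2, div_le_iff₀ Gam_pos]
  refine h1.trans ?_
  rw [Real.mul_rpow Real.pi_pos.le hy]
  have h3 : Real.pi ^ (1 / 4 : ℝ) ≤ 4 / 3 := by
    have : Real.pi ≤ (4 / 3 : ℝ) ^ (4 : ℝ) := by
      have := Real.pi_lt_d2
      norm_num
      linarith
    calc Real.pi ^ (1 / 4 : ℝ) ≤ ((4 / 3 : ℝ) ^ (4 : ℝ)) ^ (1 / 4 : ℝ) :=
          Real.rpow_le_rpow Real.pi_pos.le this (by norm_num)
      _ = 4 / 3 := by
          rw [← Real.rpow_mul (by norm_num)]; norm_num
  have h4 := Gam_ge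
  have h5 : 0 ≤ y ^ (1 / 4 : ℝ) := Real.rpow_nonneg hy _
  nlinarith [mul_le_mul_of_nonneg_right h3 h5, mul_le_mul_of_nonneg_right h4 h5]

lemma V_exp {y : ℝ} (hy : 0 ≤ y) : V y ≤ 2 * Real.exp (-y) := by
  rcases le_total y (1 / 2) with h | h
  · have h1 := V_le_one hy
    have h2 : Real.exp (-(1/2)) ≤ Real.exp (-y) := Real.exp_le_exp.2 (by linarith)
    have h3 : -(1/2 : ℝ) + 1 ≤ Real.exp (-(1/2)) := Real.add_one_le_exp _
    linarith
  · have hpy : 1 ≤ Real.pi * y := by nlinarith [Real.pi_gt_three]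
    have h1 : (∫ x in Ioi (Real.pi * y), g x) ≤ ∫ x in Ioi (Real.pi * y), Real.exp (-x) := by
      refine setIntegral_mono_on (g_int' (by linarith)) (integrableOn_exp_neg_Ioi _) measurableSet_Ioi ?_
      intro x hx
      have hx1 : 1 ≤ x := hpy.trans (le_of_lt hx)
      unfold g
      have : x ^ (-(3 / 4) : ℝ) ≤ 1 := Real.rpow_le_one_of_one_le_of_nonpos hx1 (by norm_num)
      nlinarith [Real.exp_pos (-x)]
    rw [integral_exp_neg_Ioi] at h1
    rw [V_eq, div_le_iff₀ Gam_pos]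
    have h2 : Real.exp (-(Real.pi * y)) ≤ Real.exp (-y) :=
      Real.exp_le_exp.2 (by nlinarith [Real.pi_gt_three])
    have h3 := Gam_ge
    have := Real.exp_pos (-y)
    nlinarith

/-- the function `F(v) = V(e^v/q)` -/
noncomputable def F (q : ℕ) (v : ℝ) : ℝ := V (Real.exp v / q)

lemma F_anti (q : ℕ) : Antitone (F q) := by
  intro a b hab
  unfold F
  refine V_anti (by positivity) ?_
  gcongr

lemma F_int (q : ℕ) (a b : ℝ) : IntervalIntegrable (F q) volume a b :=
  (F_anti q).intervalIntegrable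

lemma F_nonneg (q : ℕ) (v : ℝ) : 0 ≤ F q v := V_nonneg (by positivity)

lemma F_le (q : ℕ) (v : ℝ) : F q v ≤ 1 := V_le_one (by positivity)

/-- the averaged weight -/
noncomputable def w (q : ℕ) (U : ℝ) (t : ℝ) : ℝ := (∫ v in (-U)..U, F q (2 * t + v)) / (2 * U)

lemma Fs_int (q : ℕ) (c a b : ℝ) : IntervalIntegrable (fun v => F q (c + v)) volume a b := by
  have : Antitone (fun v => F q (c + v)) := fun x y h => F_anti q (by linarith)
  exact this.intervalIntegrable

lemma w_le {q : ℕ} {U : ℝ} (hU : 1 ≤ U) (t : ℝ) {c : ℝ}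
    (h : ∀ v ∈ Icc (-U) U, F q (2 * t + v) ≤ c) : w q U t ≤ c := by
  unfold w
  rw [div_le_iff₀ (by linarith)]
  have h1 : (∫ v in (-U)..U, F q (2 * t + v)) ≤ ∫ v in (-U)..U, c :=
    intervalIntegral.integral_mono_on (by linarith) (Fs_int q _ _ _) (by simp) h
  rw [intervalIntegral.integral_const, smul_eq_mul] at h1
  linarith

lemma le_w {q : ℕ} {U : ℝ} (hU : 1 ≤ U) (t : ℝ) {c : ℝ}
    (h : ∀ v ∈ Icc (-U) U, c ≤ F q (2 * t + v)) : c ≤ w q U t := by
  unfold w
  rw [le_div_iff₀ (by linarith)]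
  have h1 : (∫ v in (-U)..U, c) ≤ ∫ v in (-U)..U, F q (2 * t + v) :=
    intervalIntegral.integral_mono_on (by linarith) (by simp) (Fs_int q _ _ _) h
  rw [intervalIntegral.integral_const, smul_eq_mul] at h1
  linarith

lemma w_eq (q : ℕ) (U t : ℝ) : w q U t = (∫ v in (2 * t - U)..(2 * t + U), F q v) / (2 * U) := by
  unfold w
  congr 1
  rw [intervalIntegral.integral_comp_add_left (fun v => F q v) (2 * t)]
  congr 1

lemma w_lip0 {q : ℕ} {U : ℝ} (hU : 1 ≤ U) {s t : ℝ} (hst : t ≤ s) :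
    |w q U s - w q U t| ≤ (s - t) / U := by
  have e : w q U s - w q U t =
      ((∫ v in (2 * t + U)..(2 * s + U), F q v) - ∫ v in (2 * t - U)..(2 * s - U), F q v) /
        (2 * U) := by
    rw [w_eq, w_eq, ← sub_div]
    congr 1
    have h1 := intervalIntegral.integral_add_adjacent_intervals
      (F_int q (2 * t - U) (2 * t + U)) (F_int q (2 * t + U) (2 * s + U))
    have h2 := intervalIntegral.integral_add_adjacent_intervals
      (F_int q (2 * t - U) (2 * s - U)) (F_int q (2 * s - U) (2 * s + U))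
    linarith
  have b : ∀ c : ℝ, 0 ≤ (∫ v in (2 * t + c)..(2 * s + c), F q v) ∧
      (∫ v in (2 * t + c)..(2 * s + c), F q v) ≤ 2 * (s - t) := by
    intro c
    constructor
    · exact intervalIntegral.integral_nonneg (by linarith) (fun v _ => F_nonneg q v)
    · have h1 : (∫ v in (2 * t + c)..(2 * s + c), F q v) ≤
          ∫ v in (2 * t + c)..(2 * s + c), (1:ℝ) :=
        intervalIntegral.integral_mono_on (by linarith) (F_int q _ _) (by simp)
          (fun v _ => F_le q v)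
      rw [intervalIntegral.integral_const, smul_eq_mul] at h1
      linarith
  have b1 := b U
  have b2 := b (-U)
  simp only [← sub_eq_add_neg] at b2
  rw [e, abs_div, abs_of_pos (show (0:ℝ) < 2 * U by linarith),
    div_le_div_iff₀ (by linarith) (by linarith)]
  have : |(∫ v in (2 * t + U)..(2 * s + U), F q v) - ∫ v in (2 * t - U)..(2 * s - U), F q v| ≤
      2 * (s - t) := by
    rw [abs_le]; constructor <;> linarith [b1.1, b1.2, b2.1, b2.2]
  nlinarith

lemma w_lip {q : ℕ} {U : ℝ} (hU : 1 ≤ U) (s t : ℝ) : |w q U s - w q U t| ≤ |s - t| / U := by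
  rcases le_total t s with h | h
  · rw [abs_of_nonneg (sub_nonneg.2 h)]; exact w_lip0 hU h
  · rw [abs_sub_comm, abs_sub_comm s t, abs_of_nonneg (sub_nonneg.2 h)]; exact w_lip0 hU h

lemma F_term (q n : ℕ) (u : ℝ) : F q (2 * Real.log n + u) / Real.sqrt n =
    V ((n : ℝ) ^ 2 * Real.exp u / q) / Real.sqrt n := by
  rcases Nat.eq_zero_or_pos n with h | h
  · subst h; simp
  · congr 1
    unfold F
    have hn : (0:ℝ) < n := by exact_mod_cast h
    rw [Real.exp_add, two_mul, Real.exp_add, Real.exp_log hn, sq]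

lemma Vm (q n : ℕ) : Measurable (fun u : ℝ => V ((n : ℝ) ^ 2 * Real.exp u / q) / Real.sqrt n) := by
  have : Measurable (fun u : ℝ => F q (2 * Real.log n + u)) :=
    (show Antitone (fun v => F q (2 * Real.log n + v)) from
      fun x y h => F_anti q (by linarith)).measurable
  have e : (fun u : ℝ => V ((n : ℝ) ^ 2 * Real.exp u / q) / Real.sqrt n) =
      fun u => F q (2 * Real.log n + u) / Real.sqrt n := by
    funext u; rw [F_term]
  rw [e]
  fun_prop

lemma Vint {q : ℕ} {U : ℝ} (hU : 1 ≤ U) (n : ℕ) :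
    IntervalIntegrable (fun u : ℝ => V ((n : ℝ) ^ 2 * Real.exp u / q) / Real.sqrt n) volume (-U) U ∧
    (∫ u in (-U)..U, V ((n : ℝ) ^ 2 * Real.exp u / q) / Real.sqrt n) =
      2 * U * (w q U (Real.log n) / Real.sqrt n) := by
  have e : (fun u : ℝ => V ((n : ℝ) ^ 2 * Real.exp u / q) / Real.sqrt n) =
      fun u => F q (2 * Real.log n + u) / Real.sqrt n := by
    funext u; rw [F_term]
  rw [e]
  refine ⟨(Fs_int q _ _ _).div_const _, ?_⟩
  rw [intervalIntegral.integral_div]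
  have : (∫ v in (-U)..U, F q (2 * Real.log n + v)) = 2 * U * w q U (Real.log n) := by
    unfold w; field_simp
  rw [this]
  ring

lemma Vneg (q n : ℕ) (u : ℝ) : V ((n : ℝ) ^ 2 / (Real.exp u * q)) =
    V ((n : ℝ) ^ 2 * Real.exp (-u) / q) := by
  rw [Real.exp_neg]
  congr 1
  rw [← div_eq_mul_inv, div_div]

lemma Vint' {q : ℕ} {U : ℝ} (hU : 1 ≤ U) (n : ℕ) :
    IntervalIntegrable (fun u : ℝ => V ((n : ℝ) ^ 2 / (Real.exp u * q)) / Real.sqrt n) volume (-U) U ∧
    (∫ u in (-U)..U, V ((n : ℝ) ^ 2 / (Real.exp u * q)) / Real.sqrt n) =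
      2 * U * (w q U (Real.log n) / Real.sqrt n) := by
  have h := Vint (q := q) hU n
  simp only [Vneg]
  constructor
  · have := (h.1.comp_sub_left 0).symm
    simpa using this
  · rw [← h.2]
    have := intervalIntegral.integral_comp_neg (a := -U) (b := U)
        (fun u => V ((n : ℝ) ^ 2 * Real.exp u / q) / Real.sqrt n)
    rw [neg_neg] at this
    exact this

lemma avg {q : ℕ} {U : ℝ} (hU : 1 ≤ U) (a b : ℕ → ℂ) (ε L : ℂ)
    (ha : Summable (fun n : ℕ => ‖a n‖ * (V ((n : ℝ) ^ 2 * Real.exp (-U) / q) / Real.sqrt n)))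
    (hb : Summable (fun n : ℕ => ‖b n‖ * (V ((n : ℝ) ^ 2 * Real.exp (-U) / q) / Real.sqrt n)))
    (hL : ∀ u : ℝ, -U ≤ u → u ≤ U →
      L = ∑' n : ℕ, a n * ((V ((n : ℝ) ^ 2 * Real.exp u / q) / Real.sqrt n : ℝ) : ℂ) +
        ε * ∑' n : ℕ, b n * ((V ((n : ℝ) ^ 2 / (Real.exp u * q)) / Real.sqrt n : ℝ) : ℂ)) :
    L = ∑' n : ℕ, a n * ((w q U (Real.log n) / Real.sqrt n : ℝ) : ℂ) +
        ε * ∑' n : ℕ, b n * ((w q U (Real.log n) / Real.sqrt n : ℝ) : ℂ) := by
  have hU0 : (-U) ≤ U := by linarith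
  have key : ∀ (c : ℂ) (n : ℕ) (u : ℝ), -U ≤ u →
      ‖c * ((V ((n : ℝ) ^ 2 * Real.exp u / q) / Real.sqrt n : ℝ) : ℂ)‖ ≤
        ‖c‖ * (V ((n : ℝ) ^ 2 * Real.exp (-U) / q) / Real.sqrt n) := by
    intro c n u hu
    rw [norm_mul, Complex.norm_real, Real.norm_of_nonneg
      (div_nonneg (V_nonneg (by positivity)) (Real.sqrt_nonneg _))]
    refine mul_le_mul_of_nonneg_left ?_ (norm_nonneg _)
    refine div_le_div_of_nonneg_right ?_ (Real.sqrt_nonneg _)
    refine V_anti (by positivity) ?_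
    gcongr
  have key' : ∀ (c : ℂ) (n : ℕ) (u : ℝ), u ≤ U →
      ‖c * ((V ((n : ℝ) ^ 2 / (Real.exp u * q)) / Real.sqrt n : ℝ) : ℂ)‖ ≤
        ‖c‖ * (V ((n : ℝ) ^ 2 * Real.exp (-U) / q) / Real.sqrt n) := by
    intro c n u hu
    rw [Vneg]
    exact key c n (-u) (by linarith)
  have kw : ∀ (c : ℂ) (n : ℕ),
      ‖c * ((w q U (Real.log n) / Real.sqrt n : ℝ) : ℂ)‖ ≤
        ‖c‖ * (V ((n : ℝ) ^ 2 * Real.exp (-U) / q) / Real.sqrt n) := by
    intro c n
    have hw0 : 0 ≤ w q U (Real.log n) := le_w hU _ fun v _ => F_nonneg q _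
    rw [norm_mul, Complex.norm_real, Real.norm_of_nonneg (div_nonneg hw0 (Real.sqrt_nonneg _))]
    refine mul_le_mul_of_nonneg_left ?_ (norm_nonneg _)
    rw [← F_term]
    refine div_le_div_of_nonneg_right ?_ (Real.sqrt_nonneg _)
    refine w_le hU _ fun v hv => F_anti q ?_
    linarith [hv.1]
  have ha' : Summable (fun n : ℕ => a n * ((w q U (Real.log n) / Real.sqrt n : ℝ) : ℂ)) :=
    Summable.of_norm_bounded ha fun n => kw _ n
  have hb' : Summable (fun n : ℕ => b n * ((w q U (Real.log n) / Real.sqrt n : ℝ) : ℂ)) :=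
    Summable.of_norm_bounded hb fun n => kw _ n
  have h := intervalIntegral.hasSum_integral_of_dominated_convergence (μ := volume) (a := -U) (b := U)
    (F := fun (n : ℕ) (u : ℝ) => a n * ((V ((n : ℝ) ^ 2 * Real.exp u / q) / Real.sqrt n : ℝ) : ℂ) +
      ε * (b n * ((V ((n : ℝ) ^ 2 / (Real.exp u * q)) / Real.sqrt n : ℝ) : ℂ)))
    (f := fun _ => L)
    (fun n _ => ‖a n‖ * (V ((n : ℝ) ^ 2 * Real.exp (-U) / q) / Real.sqrt n) +
      ‖ε‖ * (‖b n‖ * (V ((n : ℝ) ^ 2 * Real.exp (-U) / q) / Real.sqrt n))) ?_ ?_ ?_ ?_ ?_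
  · have e : (fun n : ℕ => ∫ u in (-U)..U, (a n * ((V ((n : ℝ) ^ 2 * Real.exp u / q) / Real.sqrt n : ℝ) : ℂ) +
      ε * (b n * ((V ((n : ℝ) ^ 2 / (Real.exp u * q)) / Real.sqrt n : ℝ) : ℂ)))) =
      fun n => (2 * U : ℂ) * (a n * ((w q U (Real.log n) / Real.sqrt n : ℝ) : ℂ) +
        ε * (b n * ((w q U (Real.log n) / Real.sqrt n : ℝ) : ℂ))) := by
      funext n
      have h1 := Vint (q := q) hU n
      have h2 := Vint' (q := q) hU n
      have i1 : IntervalIntegrable (fun u : ℝ =>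
          ((V ((n : ℝ) ^ 2 * Real.exp u / q) / Real.sqrt n : ℝ) : ℂ)) volume (-U) U :=
        ⟨Integrable.ofReal h1.1.1, Integrable.ofReal h1.1.2⟩
      have i2 : IntervalIntegrable (fun u : ℝ =>
          ((V ((n : ℝ) ^ 2 / (Real.exp u * q)) / Real.sqrt n : ℝ) : ℂ)) volume (-U) U :=
        ⟨Integrable.ofReal h2.1.1, Integrable.ofReal h2.1.2⟩
      rw [intervalIntegral.integral_add (i1.const_mul _) ((i2.const_mul _).const_mul _),
        intervalIntegral.integral_const_mul, intervalIntegral.integral_const_mul,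
        intervalIntegral.integral_const_mul, intervalIntegral.integral_ofReal,
        intervalIntegral.integral_ofReal, h1.2, h2.2]
      push_cast
      ring
    rw [e] at h
    have h3 : HasSum (fun n => (2 * U : ℂ) * (a n * ((w q U (Real.log n) / Real.sqrt n : ℝ) : ℂ) +
        ε * (b n * ((w q U (Real.log n) / Real.sqrt n : ℝ) : ℂ))))
        ((2 * U : ℂ) * (∑' n : ℕ, a n * ((w q U (Real.log n) / Real.sqrt n : ℝ) : ℂ) +
        ε * ∑' n : ℕ, b n * ((w q U (Real.log n) / Real.sqrt n : ℝ) : ℂ))) :=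
      (ha'.hasSum.add (hb'.hasSum.mul_left ε)).mul_left _
    have h4 := h.unique h3
    rw [intervalIntegral.integral_const] at h4
    have h5 : (2 * U : ℂ) ≠ 0 := by
      have : (2 * U : ℝ) ≠ 0 := by linarith
      exact_mod_cast this
    refine mul_left_cancel₀ h5 ?_
    rw [← h4, Complex.real_smul]
    push_cast
    ring
  · intro n
    refine Measurable.aestronglyMeasurable ?_
    have m1 := Vm q n
    have m2 : Measurable (fun u : ℝ => V ((n : ℝ) ^ 2 / (Real.exp u * q)) / Real.sqrt n) := by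
      simp only [Vneg]
      exact (Vm q n).comp measurable_neg
    exact (m1.complex_ofReal.const_mul _).add ((m2.complex_ofReal.const_mul _).const_mul _)
  · intro n
    refine Filter.Eventually.of_forall fun u hu => ?_
    rw [uIoc_of_le hU0] at hu
    refine (norm_add_le _ _).trans (add_le_add (key _ n u hu.1.le) ?_)
    rw [norm_mul]
    exact mul_le_mul_of_nonneg_left (key' _ n u hu.2) (norm_nonneg _)
  · exact Filter.Eventually.of_forall fun u _ => ha.add (hb.mul_left _)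
  · simp
  · refine Filter.Eventually.of_forall fun u hu => ?_
    rw [uIoc_of_le hU0] at hu
    have s1 : Summable (fun n : ℕ => a n * ((V ((n : ℝ) ^ 2 * Real.exp u / q) / Real.sqrt n : ℝ) : ℂ)) :=
      Summable.of_norm_bounded ha fun n => key _ n u hu.1.le
    have s2 : Summable (fun n : ℕ => b n * ((V ((n : ℝ) ^ 2 / (Real.exp u * q)) / Real.sqrt n : ℝ) : ℂ)) :=
      Summable.of_norm_bounded hb fun n => key' _ n u hu.2
    rw [hL u hu.1.le hu.2]
    exact s1.hasSum.add (s2.hasSum.mul_left ε)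

theorem t_AFE : S_AFE0 → S_AFE := by
  intro h0 q _ hq U hU
  refine ⟨w q U, fun t => ⟨le_w hU t fun v _ => F_nonneg q _, w_le hU t fun v _ => F_le q _⟩,
    w_lip hU, ?_, ?_, ?_⟩
  · intro t
    have : 1 - 2 * (Real.exp (2 * t + U) / q) ^ (1 / 4 : ℝ) ≤ w q U t := by
      refine le_w hU t fun v hv => ?_
      have h1 := V_low (y := Real.exp (2 * t + v) / q) (by positivity)
      have h2 : (Real.exp (2 * t + v) / q) ^ (1 / 4 : ℝ) ≤
          (Real.exp (2 * t + U) / q) ^ (1 / 4 : ℝ) := by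
        refine Real.rpow_le_rpow (by positivity) ?_ (by norm_num)
        have := hv.2
        gcongr
      unfold F
      linarith
    linarith
  · intro t
    refine w_le hU t fun v hv => ?_
    have h1 := V_exp (y := Real.exp (2 * t + v) / q) (by positivity)
    have h2 : Real.exp (2 * t - U) / q ≤ Real.exp (2 * t + v) / q := by
      have := hv.1
      gcongr
      linarith
    unfold F
    refine h1.trans ?_
    have : Real.exp (-(Real.exp (2 * t + v) / q)) ≤ Real.exp (-(Real.exp (2 * t - U) / q)) :=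
      Real.exp_le_exp.2 (by linarith)
    linarith
  · intro ψ hψ hev
    have hA := fun X hX => h0 q hq ψ hψ hev X hX
    have hs1 := (hA (Real.exp (-U)) (Real.exp_pos _)).1
    exact avg (q := q) hU (fun n => ψ (n : ZMod q)) (fun n => (starRingEnd ℂ) (ψ (n : ZMod q)))
      ψ.rootNumber (ψ.LFunction (1 / 2)) hs1 (by simpa using hs1)
      (fun u _ _ => (hA (Real.exp u) (Real.exp_pos _)).2)

end Pool.Agent.Run7.h68.PV

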